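import Pool.Agent.Results.MP_0426f4_nt.ExactOrder
import Pool.Agent.N945.NP.Gap
import Pool.Agent.N945.NP.Up2

set_option autoImplicit false

/-!
# The order of magnitude of `g_t(n)` for every `t ≥ 3`

`g t n` is the quantity `g_t(n)` of the problem. We prove `g_t(n) ≍ (log n)^(log_2 (dens t))` for
every `t ≥ 3`, with `dens 3 = 1/3`, `dens t = (t-2)/(t-1)` for even `t` and
`dens t = (t-3)/(t-2)` for odd `t ≥ 5`. The case of odd `t ≥ 5` is new. The number `dens t` is the
largest density of a set of integers without a progression of `t-1` terms whose difference is a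
power of two; `r t M`, the largest size of such a subset of `{0, ..., M-1}`, is
`dens t * M + O(1)`.
-/

namespace Pool.Agent.Results.MP_0426f4_nt.SharpOrder

open Pool.Agent.Y869.NP Pool.Agent.N945.NP

/-- `A` nearly contains a `(t,d,w)`-progression: for some `b` the set `A` meets the block
`[b + i d, b + i d + w]` for each `i = 1, ..., t-1`. -/
def NearlyContains (A : Finset ℕ) (t d w : ℕ) : Prop :=
  ∃ b : ℕ, ∀ i ∈ Finset.Icc 1 (t - 1), ∃ a ∈ A, b + i * d ≤ a ∧ a ≤ b + i * d + w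

/-- `A ⊆ [1,n]` nearly contains no `(t,d,w)`-progression with `d` a power of two, `w n < d^2`. -/
def Avoids (t n : ℕ) (A : Finset ℕ) : Prop :=
  A ⊆ Finset.Icc 1 n ∧ ∀ j w : ℕ, w * n < (2 ^ j) ^ 2 → ¬ NearlyContains A t (2 ^ j) w

/-- The quantity `g_t(n)`: the maximum of `|A|/n` over the avoiding sets `A ⊆ [1,n]`. -/
noncomputable def g (t n : ℕ) : ℝ := sSup {x : ℝ | ∃ A : Finset ℕ, Avoids t n A ∧ x = A.card / n}

/-- `H ⊆ {0, ..., M-1}` contains no progression of `t - 1` terms whose difference is a power of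
two. -/
def PowerFree (t M : ℕ) (H : Finset ℕ) : Prop :=
  H ⊆ Finset.range M ∧ ∀ x e : ℕ, ¬ ∀ l : ℕ, l < t - 1 → x + l * 2 ^ e ∈ H

/-- The largest size of such a set. -/
noncomputable def r (t M : ℕ) : ℕ := sSup {m : ℕ | ∃ H : Finset ℕ, PowerFree t M H ∧ m = H.card}

/-- The density. -/
noncomputable def dens (t : ℕ) : ℝ :=
  if t = 3 then 1 / 3 else if Even t then ((t : ℝ) - 2) / ((t : ℝ) - 1)
    else ((t : ℝ) - 3) / ((t : ℝ) - 2)

theorem g_eq : g = ExactOrder.g := rfl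

theorem r_eq : r = ExactOrder.r := rfl

/-- the bound for odd `t` -/
theorem r_odd_up {t : ℕ} (ht : 5 ≤ t) (hodd : Odd t) (M : ℕ) :
    (r t M : ℝ) ≤ ((t : ℝ) - 3) / ((t : ℝ) - 2) * M + 4 := by
  classical
  obtain ⟨k, rfl⟩ : ∃ k : ℕ, t = k + 1 := ⟨t - 1, by omega⟩
  have hev : Even k := by
    obtain ⟨m, hm⟩ := hodd
    exact ⟨m, by omega⟩
  obtain ⟨H, hH, hcard⟩ := (ExactOrder.r_isGreatest (by omega : 3 ≤ k + 1) M).1
  have hit : ∀ e : ℕ, Hit k M (2 ^ e) (Finset.range M \ H) := by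
    intro e x hx
    by_contra hcon
    push Not at hcon
    refine hH.2 x e fun l hl => ?_
    have h1 := hcon l (by omega)
    rw [Finset.mem_sdiff, not_and, not_not] at h1
    refine h1 (Finset.mem_range.2 ?_)
    have h2 : l * 2 ^ e ≤ (k - 1) * 2 ^ e := Nat.mul_le_mul_right _ (by omega)
    omega
  have h1 := hit_card (by omega : 4 ≤ k) hev
    (C := Finset.range M \ H) (fun x hx => Finset.mem_range.1 (Finset.mem_sdiff.1 hx).1)
    (by simpa using hit 0) (by simpa using hit 1)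
  have h2 : (Finset.range M \ H).card + H.card = M := by
    have h3 := Finset.card_sdiff_add_card_eq_card hH.1
    rwa [Finset.card_range] at h3
  have h4 : r (k + 1) M = H.card := hcard
  rw [h4]
  have h1R : (M : ℝ) ≤ ((k : ℝ) - 1) * ((Finset.range M \ H).card : ℝ) + (2 * k + 2) := by
    have h5 : (M : ℝ) ≤ (((k - 1) * (Finset.range M \ H).card + (2 * k + 2) : ℕ) : ℝ) := by
      exact_mod_cast h1
    rw [Nat.cast_add, Nat.cast_mul, Nat.cast_sub (by omega)] at h5
    push_cast at h5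
    exact h5
  have h2R : ((Finset.range M \ H).card : ℝ) = M - H.card := by
    rw [eq_sub_iff_add_eq]
    exact_mod_cast h2
  have hk : (4 : ℝ) ≤ k := by exact_mod_cast (by omega : 4 ≤ k)
  rw [h2R] at h1R
  push_cast
  have hk1 : (0 : ℝ) < (k : ℝ) + 1 - 2 := by linarith
  have h6 : ((k : ℝ) + 1 - 3) / ((k : ℝ) + 1 - 2) * M + 4 =
      (((k : ℝ) + 1 - 3) * M + 4 * ((k : ℝ) + 1 - 2)) / ((k : ℝ) + 1 - 2) := by
    field_simp
  rw [h6, le_div_iff₀ hk1]
  nlinarith

/-- blocks of length `q` -/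
theorem r_blocks {t q a : ℕ} (ht : 3 ≤ t) (hq : r t q ≤ a) (m s : ℕ) :
    r t (q * m + s) ≤ m * a + s := by
  rw [r_eq] at hq ⊢
  induction m with
  | zero =>
    rw [Nat.mul_zero, Nat.zero_mul]
    exact ExactOrder.r_le t _ ht |>.trans (by omega)
  | succ m ih =>
    have h1 := ExactOrder.r_sub ht q (q * m + s)
    have h2 : q * (m + 1) + s = q + (q * m + s) := by ring
    rw [h2]
    have h3 : (m + 1) * a + s = a + (m * a + s) := by ring
    rw [h3]
    exact h1.trans (Nat.add_le_add hq ih)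

theorem dens_three : dens 3 = 1 / 3 := if_pos rfl

theorem dens_even {t : ℕ} (ht : 4 ≤ t) (hev : Even t) :
    dens t = ((t : ℝ) - 2) / ((t : ℝ) - 1) := by
  unfold dens
  rw [if_neg (by omega), if_pos hev]

theorem dens_odd {t : ℕ} (ht : 5 ≤ t) (hodd : Odd t) :
    dens t = ((t : ℝ) - 3) / ((t : ℝ) - 2) := by
  unfold dens
  rw [if_neg (by omega), if_neg (Nat.not_even_iff_odd.2 hodd)]

theorem r_up {t : ℕ} (ht : 3 ≤ t) (M : ℕ) : (r t M : ℝ) ≤ dens t * M + 4 := by
  rcases Nat.eq_or_lt_of_le ht with h3 | h3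
  · subst h3
    rw [dens_three]
    have h1 := r_blocks (le_refl 3) (q := 3) (a := 1) ExactOrder.r_small3 (M / 3) (M % 3)
    rw [Nat.div_add_mod] at h1
    have h2 : 3 * r 3 M ≤ M + 12 := by omega
    have h2R : (3 : ℝ) * r 3 M ≤ M + 12 := by exact_mod_cast h2
    linarith
  · rcases Nat.even_or_odd t with hev | hodd
    · rw [dens_even h3 hev]
      obtain ⟨q, rfl⟩ : ∃ q : ℕ, t = q + 1 := ⟨t - 1, by omega⟩
      obtain ⟨a, rfl⟩ : ∃ a : ℕ, q = a + 1 := ⟨q - 1, by omega⟩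
      have h1 := r_blocks (t := a + 1 + 1) (by omega) (q := a + 1) (a := a)
        (ExactOrder.r_small (t := a + 1 + 1) (by omega)) (M / (a + 1)) (M % (a + 1))
      rw [Nat.div_add_mod] at h1
      have h2 : (a + 1) * r (a + 1 + 1) M ≤ a * M + 4 * (a + 1) := by
        have h4 := Nat.div_add_mod M (a + 1)
        have h5 := Nat.mod_lt M (by omega : 0 < a + 1)
        obtain ⟨m, hm⟩ : ∃ m, m = M / (a + 1) := ⟨_, rfl⟩
        obtain ⟨s, hs⟩ : ∃ s, s = M % (a + 1) := ⟨_, rfl⟩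
        rw [← hm, ← hs] at h1 h4
        rw [← hs] at h5
        have h6 : (a + 1) * r (a + 1 + 1) M ≤ (a + 1) * (m * a + s) := Nat.mul_le_mul_left _ h1
        have h7 : (a + 1) * (m * a + s) = a * ((a + 1) * m + s) + s := by ring
        rw [h7, h4] at h6
        omega
      have h2R : ((a : ℝ) + 1) * r (a + 1 + 1) M ≤ a * M + 4 * (a + 1) := by exact_mod_cast h2
      push_cast
      have ha : (0 : ℝ) < (a : ℝ) + 1 + 1 - 1 := by
        have : (0 : ℝ) ≤ a := Nat.cast_nonneg a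
        linarith
      have h6 : ((a : ℝ) + 1 + 1 - 2) / ((a : ℝ) + 1 + 1 - 1) * M + 4 =
          (a * M + 4 * (a + 1)) / ((a : ℝ) + 1 + 1 - 1) := by
        field_simp
        ring
      rw [h6, le_div_iff₀ ha]
      linarith
    · have h5 : 5 ≤ t := by
        obtain ⟨m, hm⟩ := hodd
        omega
      rw [dens_odd h5 hodd]
      exact r_odd_up h5 hodd M

theorem dens_eq_rho {t : ℕ} (ht : 3 ≤ t) : dens t = ExactOrder.rho t := by
  rcases Nat.eq_or_lt_of_le ht with h3 | h3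
  · subst h3
    rw [dens_three, ExactOrder.rho_three]
  · rcases Nat.even_or_odd t with hev | hodd
    · rw [dens_even h3 hev, ExactOrder.rho_even h3 hev]
    · have h5 : 5 ≤ t := by
        obtain ⟨m, hm⟩ := hodd
        omega
      refine le_antisymm ?_ ?_
      · rw [dens_odd h5 hodd]
        exact ExactOrder.rho_odd h5 hodd
      · refine le_of_forall_pos_le_add fun ε hε => ?_
        obtain ⟨M, hM⟩ := exists_nat_gt (4 / ε)
        have hM0 : (0 : ℝ) < M := lt_trans (by positivity) hM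
        have h6 := ExactOrder.rho_le (t := t) M (by exact_mod_cast hM0)
        have h7 := r_up ht M
        rw [r_eq] at h7
        refine h6.trans ?_
        rw [div_le_iff₀ hM0]
        rw [div_lt_iff₀ hε] at hM
        nlinarith

theorem r_low {t : ℕ} (ht : 3 ≤ t) (M : ℕ) : dens t * M ≤ (r t M : ℝ) := by
  rw [dens_eq_rho ht, r_eq]
  rcases Nat.eq_zero_or_pos M with h | h
  · subst h
    simp
  · have h1 := ExactOrder.rho_le (t := t) M h
    rwa [le_div_iff₀ (by exact_mod_cast h)] at h1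

theorem upper {t : ℕ} (ht : 3 ≤ t) : ∃ C : ℝ, 0 < C ∧ ∀ n : ℕ, 2 ≤ n →
    g t n ≤ C * Real.log n ^ (Real.log (dens t) / Real.log 2) := by
  obtain ⟨k, rfl⟩ : ∃ k : ℕ, t = k + 1 := ⟨t - 1, by omega⟩
  have hρ3 : 1 ≤ 4 * dens (k + 1) := by
    rw [dens_eq_rho ht]
    have := ExactOrder.rho_ge ht
    linarith
  have hρ1 : dens (k + 1) ≤ 1 := by
    rw [dens_eq_rho ht]
    exact (ExactOrder.rho_lt_one ht).le
  obtain ⟨ρ, hρ⟩ : ∃ ρ, ρ = dens (k + 1) := ⟨_, rfl⟩
  have hHM : ∀ M : ℕ, HM k M (r (k + 1) M) := by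
    intro M H hH hno
    refine (ExactOrder.r_isGreatest ht M).2 ⟨H, ⟨hH, fun x e h => ?_⟩, rfl⟩
    rcases Nat.lt_or_ge (2 ^ e) M with he | he
    · exact hno x e he h
    · have := Finset.mem_range.1 (hH (h 1 (by omega)))
      omega
  obtain ⟨C, hC, hup⟩ := up' (k := k) (R := fun μ => r (k + 1) (2 ^ μ)) (ρ := ρ) (c := 4)
    (by rw [hρ]; exact hρ3) (by norm_num) (fun μ => hHM _) (fun μ => by
      have h1 := r_up ht (2 ^ μ)
      rw [← hρ] at h1
      push_cast at h1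
      have h2 : (2 : ℝ) ^ μ * (ρ + 4 / 2 ^ μ) = ρ * 2 ^ μ + 4 := by
        field_simp
      rw [h2]
      exact h1)
  rw [← hρ] at hρ3 hρ1 ⊢
  have hρ0 : 0 < ρ := by linarith
  have h2 : 0 < Real.log 2 := Real.log_pos (by norm_num)
  have h21 : Real.log 2 ≤ 1 := by
    have := Real.log_two_lt_d9
    linarith
  obtain ⟨e, he⟩ : ∃ e : ℝ, e = -(Real.log ρ / Real.log 2) := ⟨_, rfl⟩
  have he' : Real.log ρ / Real.log 2 = -e := by rw [he]; ring
  have he0 : 0 ≤ e := by
    rw [he, neg_nonneg]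
    exact div_nonpos_of_nonpos_of_nonneg (Real.log_nonpos hρ0.le hρ1) h2.le
  rw [he']
  refine ⟨2 * C * 2 ^ e, by positivity, fun n hn => ?_⟩
  have hnR : (0 : ℝ) < n := by exact_mod_cast (by omega : 0 < n)
  have hlogn : Real.log 2 ≤ Real.log n := by
    apply Real.log_le_log (by norm_num)
    exact_mod_cast hn
  have hlogpos : 0 < Real.log n := by linarith
  obtain ⟨A, hA, hgA⟩ := (ExactOrder.isGreatest (t := k + 1) (by omega) n).1
  rw [ExactOrder.avoids_iff] at hA
  rw [g_eq, hgA]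
  obtain ⟨N, hNd⟩ : ∃ N : ℕ, N = Nat.log 2 n + 1 := ⟨_, rfl⟩
  have h3 : n < 2 ^ N := by
    rw [hNd]; exact Nat.lt_pow_succ_log_self (b := 2) (by norm_num) n
  have h4 : 2 ^ N ≤ 2 * n := by
    have := Nat.pow_log_le_self 2 (x := n) (by omega)
    rw [hNd, pow_succ]
    omega
  have h5 := hup N (by omega) n h3 A hA.1 hA.2
  obtain ⟨K, hK⟩ : ∃ K : ℕ, K = Nat.log 2 N := ⟨_, rfl⟩
  rw [← hK] at h5
  have hKN : N < 2 ^ (K + 1) := by
    rw [hK]; exact Nat.lt_pow_succ_log_self (b := 2) (by norm_num) N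
  have h6 : Real.log n / 2 ≤ (2 : ℝ) ^ K := by
    have h7 : (N : ℝ) ≤ 2 * 2 ^ K := by
      have : N ≤ 2 * 2 ^ K := by rw [pow_succ] at hKN; omega
      exact_mod_cast this
    have h8 : Real.log n ≤ N := by
      calc Real.log n ≤ Real.log ((2 : ℝ) ^ N) := by
            apply Real.log_le_log hnR
            exact_mod_cast h3.le
        _ = N * Real.log 2 := by rw [Real.log_pow]
        _ ≤ N * 1 := mul_le_mul_of_nonneg_left h21 (by positivity)
        _ = N := mul_one _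
    linarith
  have h9 : ρ ^ K ≤ (Real.log n / 2) ^ (-e) := by
    rw [ExactOrder.pow_eq hρ0, he']
    exact Real.rpow_le_rpow_of_nonpos (by positivity) h6 (by linarith)
  have h10 : (Real.log n / 2) ^ (-e) = Real.log n ^ (-e) * 2 ^ e := by
    rw [Real.div_rpow hlogpos.le (by norm_num), Real.rpow_neg (by norm_num : (0 : ℝ) ≤ 2) e,
      div_inv_eq_mul]
  have h11 : (2 : ℝ) ^ N ≤ 2 * n := by exact_mod_cast h4
  rw [div_le_iff₀ hnR]
  calc (A.card : ℝ) ≤ C * 2 ^ N * ρ ^ K := h5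
    _ ≤ C * (2 * n) * (Real.log n ^ (-e) * 2 ^ e) := by
        rw [← h10]
        apply mul_le_mul _ h9 (by positivity) (by positivity)
        exact mul_le_mul_of_nonneg_left h11 hC.le
    _ = 2 * C * 2 ^ e * Real.log n ^ (-e) * n := by ring

/-- **The order of magnitude of `g_t(n)` for every `t ≥ 3`.** -/
theorem result (t : ℕ) (ht : 3 ≤ t) :
    -- `g t n` is a maximum
    (∀ n : ℕ, IsGreatest {x : ℝ | ∃ A : Finset ℕ, Avoids t n A ∧ x = A.card / n} (g t n)) ∧
    -- the order of magnitude of `g_t(n)`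
    (∃ c C : ℝ, 0 < c ∧ 0 < C ∧ ∀ n : ℕ, 2 ≤ n →
      c * Real.log n ^ (Real.log (dens t) / Real.log 2) ≤ g t n ∧
      g t n ≤ C * Real.log n ^ (Real.log (dens t) / Real.log 2)) := by
  obtain ⟨c, hc, hlow⟩ := ExactOrder.lower_t ht
  obtain ⟨C, hC, hup⟩ := upper ht
  refine ⟨fun n => ExactOrder.isGreatest ht n, c, C, hc, hC, fun n hn => ⟨?_, hup n hn⟩⟩
  rw [dens_eq_rho ht]
  exact hlow n hn

end Pool.Agent.Results.MP_0426f4_nt.SharpOrder
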